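import Pool.Agent.Lib_helper33.IHP.Depth

namespace Pool.Agent.Lib_helper33.IHP

open Ordinal Order

/-- number of `j < i` with `t j = c` -/
def cnt (T : DType) (c : Fin 2) (i : Fin (2 * T.width)) : ℕ :=
  (Finset.univ.filter (fun j => j < i ∧ T.t j = c)).card

theorem card_c (T : DType) (c : Fin 2) : (Finset.univ.filter (fun j => T.t j = c)).card = T.width := by
  have : c = 0 ∨ c = 1 := by omega
  rcases this with rfl | rfl
  · exact T.zeros
  · exact T.ones

theorem cnt_lt (T : DType) (c : Fin 2) (i) (hi : T.t i = c) : cnt T c i < T.width := by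
  rw [← card_c T c]
  unfold cnt
  apply Finset.card_lt_card
  rw [Finset.ssubset_iff_of_subset]
  · exact ⟨i, by simpa using hi, by simp⟩
  · intro j hj
    simp only [Finset.mem_filter, Finset.mem_univ, true_and] at hj ⊢
    exact hj.2

theorem cnt_mono (T : DType) (c : Fin 2) {i j} (hij : i ≤ j) : cnt T c i ≤ cnt T c j := by
  unfold cnt
  apply Finset.card_le_card
  intro x hx
  simp only [Finset.mem_filter, Finset.mem_univ, true_and] at hx ⊢
  exact ⟨hx.1.trans_le hij, hx.2⟩

theorem cnt_strict (T : DType) (c : Fin 2) {i j} (hij : i < j) (hi : T.t i = c) :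
    cnt T c i < cnt T c j := by
  unfold cnt
  apply Finset.card_lt_card
  rw [Finset.ssubset_iff_of_subset]
  · exact ⟨i, by simp [hij, hi], by simp⟩
  · intro x hx
    simp only [Finset.mem_filter, Finset.mem_univ, true_and] at hx ⊢
    exact ⟨hx.1.trans hij, hx.2⟩

theorem cnt_surj (T : DType) (c : Fin 2) (q : ℕ) (hq : q < T.width) : ∃ i, T.t i = c ∧ cnt T c i = q := by
  have h1 : ((Finset.univ.filter (fun j => T.t j = c)).image (cnt T c)) = Finset.range T.width := by
    apply Finset.eq_of_subset_of_card_le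
    · intro x hx
      simp only [Finset.mem_image, Finset.mem_filter, Finset.mem_univ, true_and] at hx
      obtain ⟨i, hi, rfl⟩ := hx
      exact Finset.mem_range.mpr (cnt_lt T c i hi)
    · rw [Finset.card_image_of_injOn, card_c, Finset.card_range]
      intro i hi j hj hij
      simp only [Finset.coe_filter, Finset.mem_univ, true_and, Set.mem_ofPred_eq] at hi hj
      rcases lt_trichotomy i j with h | h | h
      · exact absurd hij (cnt_strict T c h hi).ne
      · exact h
      · exact absurd hij (cnt_strict T c h hj).ne'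
  have h2 : q ∈ ((Finset.univ.filter (fun j => T.t j = c)).image (cnt T c)) := by
    rw [h1]
    exact Finset.mem_range.mpr hq
  simp only [Finset.mem_image, Finset.mem_filter, Finset.mem_univ, true_and] at h2
  exact h2

/-- number of zeros before the `q`-th one -/
def zz (T : DType) (q : ℕ) : ℕ := (Finset.univ.filter (fun i => T.t i = 0 ∧ cnt T 1 i ≤ q)).card

theorem zz_mono (T : DType) : Monotone (zz T) := by
  intro p q hpq
  unfold zz
  apply Finset.card_le_card
  intro x hx
  simp only [Finset.mem_filter, Finset.mem_univ, true_and] at hx ⊢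
  exact ⟨hx.1, hx.2.trans hpq⟩

theorem zz_le (T : DType) (q : ℕ) : zz T q ≤ T.width := by
  rw [← T.zeros]
  unfold zz
  apply Finset.card_le_card
  intro x hx
  simp only [Finset.mem_filter, Finset.mem_univ, true_and] at hx ⊢
  exact hx.1

theorem zz_eq_width (T : DType) (m q : ℕ) (hl : Low T m) (hq : m ≤ q) : zz T q = T.width := by
  apply le_antisymm (zz_le T q)
  rw [← T.zeros]
  unfold zz
  apply Finset.card_le_card
  intro x hx
  simp only [Finset.mem_filter, Finset.mem_univ, true_and] at hx ⊢
  exact ⟨hx, (hl x hx).trans hq⟩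

theorem zz_cnt (T : DType) (j) (hj : T.t j = 1) : zz T (cnt T 1 j) = cnt T 0 j := by
  unfold zz
  show _ = (Finset.univ.filter (fun x => x < j ∧ T.t x = 0)).card
  congr 1
  ext x
  simp only [Finset.mem_filter, Finset.mem_univ, true_and]
  constructor
  · rintro ⟨hx, hle⟩
    refine ⟨?_, hx⟩
    by_contra hcon
    push Not at hcon
    rcases hcon.lt_or_eq with h | h
    · exact absurd hle (not_le.mpr (cnt_strict T 1 h hj))
    · rw [h, hx] at hj
      exact absurd hj (by decide)
  · rintro ⟨hx, h0⟩
    exact ⟨h0, cnt_mono T 1 hx.le⟩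

theorem merge (T : DType) (a b : ℕ → Ordinal.{0}) (ha : StrictMono a) (hb : StrictMono b)
    (h1 : ∀ q < T.width, zz T q < T.width → b q < a (zz T q))
    (h2 : ∀ q < T.width, 0 < zz T q → a (zz T q - 1) < b q) :
    HasType T (a '' {i | i < T.width}) (b '' {i | i < T.width}) := by
  refine ⟨fun i => if T.t i = 0 then a (cnt T 0 i) else b (cnt T 1 i), ?_, ?_, ?_⟩
  · intro i j hij
    show (if T.t i = 0 then a (cnt T 0 i) else b (cnt T 1 i)) <
      (if T.t j = 0 then a (cnt T 0 j) else b (cnt T 1 j))
    by_cases hi : T.t i = 0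
    · rw [if_pos hi]
      by_cases hj : T.t j = 0
      · rw [if_pos hj]
        exact ha (cnt_strict T 0 hij hi)
      · have hj1 : T.t j = 1 := by omega
        rw [if_neg hj]
        have h3 := zz_cnt T j hj1
        have h4 := cnt_strict T 0 hij hi
        have h5 := h2 (cnt T 1 j) (cnt_lt T 1 j hj1) (by omega)
        refine lt_of_le_of_lt (ha.monotone ?_) h5
        omega
    · have hi1 : T.t i = 1 := by omega
      rw [if_neg hi]
      by_cases hj : T.t j = 0
      · rw [if_pos hj]
        have h3 := zz_cnt T i hi1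
        have h4 := cnt_mono T 0 hij.le
        have h6 := cnt_lt T 0 j hj
        have h5 := h1 (cnt T 1 i) (cnt_lt T 1 i hi1) (by omega)
        refine lt_of_lt_of_le h5 (ha.monotone ?_)
        omega
      · rw [if_neg hj]
        exact hb (cnt_strict T 1 hij hi1)
  · ext x
    constructor
    · rintro ⟨q, hq, rfl⟩
      obtain ⟨i, hi, hi2⟩ := cnt_surj T 0 q hq
      refine ⟨i, hi, ?_⟩
      show (if T.t i = 0 then a (cnt T 0 i) else b (cnt T 1 i)) = a q
      rw [if_pos hi, hi2]
    · rintro ⟨i, hi, rfl⟩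
      have hi' : T.t i = 0 := hi
      refine ⟨cnt T 0 i, cnt_lt T 0 i hi, ?_⟩
      show _ = (if T.t i = 0 then a (cnt T 0 i) else b (cnt T 1 i))
      rw [if_pos hi']
  · ext x
    constructor
    · rintro ⟨q, hq, rfl⟩
      obtain ⟨i, hi, hi2⟩ := cnt_surj T 1 q hq
      refine ⟨i, hi, ?_⟩
      show (if T.t i = 0 then a (cnt T 0 i) else b (cnt T 1 i)) = b q
      rw [if_neg (by omega), hi2]
    · rintro ⟨i, hi, rfl⟩
      have hi' : T.t i = 1 := hi
      refine ⟨cnt T 1 i, cnt_lt T 1 i hi, ?_⟩
      show _ = (if T.t i = 0 then a (cnt T 0 i) else b (cnt T 1 i))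
      rw [if_neg (by omega)]

theorem HasType.disjoint {T : DType} {A B : Set Ordinal.{0}} (h : HasType T A B) : Disjoint A B := by
  obtain ⟨e, he, hA, hB⟩ := h
  rw [Set.disjoint_left]
  rintro x hxA hxB
  rw [hA] at hxA
  rw [hB] at hxB
  obtain ⟨i, hi, hi'⟩ := hxA
  obtain ⟨j, hj, hj'⟩ := hxB
  have : i = j := he.injective (hi'.trans hj'.symm)
  subst this
  have h1 : T.t i = 0 := hi
  have h2 : T.t i = 1 := hj
  rw [h1] at h2
  exact absurd h2 (by decide)

end Pool.Agent.Lib_helper33.IHP
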