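import Pool.Agent.Lib_helper33.IHP.Pos
import Pool.Agent.Lib_helper33.IHP.Merge

namespace Pool.Agent.Lib_helper33.IHP

open Ordinal Order

theorem list_bound (κ : Ordinal.{0}) (hκ : 0 < κ) (s : List Ordinal.{0}) (h : ∀ x ∈ s, x < κ) :
    ∃ u < κ, ∀ x ∈ s, x ≤ u := by
  induction s with
  | nil => exact ⟨0, hκ, by simp⟩
  | cons a s ih =>
    obtain ⟨u, hu, hu2⟩ := ih (fun x hx => h x (List.mem_cons_of_mem _ hx))
    refine ⟨max a u, max_lt (h a List.mem_cons_self) hu, ?_⟩
    intro x hx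
    rcases List.mem_cons.mp hx with rfl | hx
    · exact le_max_left _ _
    · exact (hu2 x hx).trans (le_max_right _ _)

theorem list_cofinal (c : ℕ → Ordinal.{0}) (hc : StrictMono c) (α : Ordinal.{0})
    (hcof : ∀ γ < α, ∃ i, γ < c i) (s : List Ordinal.{0}) (h : ∀ x ∈ s, x < α) :
    ∃ p, ∀ x ∈ s, x ≤ c p := by
  induction s with
  | nil => exact ⟨0, by simp⟩
  | cons a s ih =>
    obtain ⟨p, hp⟩ := ih (fun x hx => h x (List.mem_cons_of_mem _ hx))
    obtain ⟨i, hi⟩ := hcof a (h a List.mem_cons_self)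
    refine ⟨max p i, ?_⟩
    intro x hx
    rcases List.mem_cons.mp hx with rfl | hx
    · exact hi.le.trans (hc.monotone (le_max_right _ _))
    · exact (hp x hx).trans (hc.monotone (le_max_left _ _))

/-- the finite sequence `s` followed by `c (p+1), c (p+2), …` -/
noncomputable def splice (s : List Ordinal.{0}) (c : ℕ → Ordinal.{0}) (p : ℕ) (i : ℕ) : Ordinal.{0} :=
  if h : i < s.length then s[i] else c (p + 1 + (i - s.length))

theorem splice_strictMono (s : List Ordinal.{0}) (hs : s.Pairwise (· < ·)) (c : ℕ → Ordinal.{0})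
    (hc : StrictMono c) (p : ℕ) (hp : ∀ x ∈ s, x ≤ c p) : StrictMono (splice s c p) := by
  intro i j hij
  unfold splice
  by_cases hj : j < s.length
  · rw [dif_pos hj, dif_pos (hij.trans hj)]
    exact List.pairwise_iff_getElem.mp hs i j _ _ hij
  · rw [dif_neg hj]
    by_cases hi : i < s.length
    · rw [dif_pos hi]
      refine lt_of_le_of_lt (hp _ (List.getElem_mem _)) (hc ?_)
      omega
    · rw [dif_neg hi]
      apply hc
      omega

theorem exists_E (C : Ordinal.{0} → ℕ → Ordinal.{0}) (hC : IsCSeq C)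
    (S : List Ordinal.{0} → Set Ordinal.{0})
    (hS : ∀ s s', (∀ x ∈ s, x < ω₁) → (∀ x ∈ s', x < ω₁) → ∀ α < ω₁, α ∈ S s → α ∈ S s' → s = s') :
    ∃ E : Ordinal.{0} → ℕ → Ordinal.{0}, IsCSeq E ∧ ∀ α, IsSuccLimit α → α < ω₁ → ∀ s,
      s.Pairwise (· < ·) → (∀ x ∈ s, x < α) → α ∈ S s → ∃ p, (∀ x ∈ s, x ≤ C α p) ∧
        E α = splice s (C α) p := by
  classical
  have key : ∀ α, IsSuccLimit α → α < ω₁ → ∃ c : ℕ → Ordinal.{0},
      (StrictMono c ∧ (∀ i, c i < α) ∧ ∀ γ < α, ∃ i, γ < c i) ∧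
      ∀ s : List Ordinal.{0}, s.Pairwise (· < ·) → (∀ x ∈ s, x < α) → α ∈ S s →
        ∃ p, (∀ x ∈ s, x ≤ C α p) ∧ c = splice s (C α) p := by
    intro α hα hα1
    obtain ⟨h1, h2, h3⟩ := hC α hα hα1
    by_cases hex : ∃ s : List Ordinal.{0}, s.Pairwise (· < ·) ∧ (∀ x ∈ s, x < α) ∧ α ∈ S s
    · obtain ⟨s, hs, hsα, hαs⟩ := hex
      obtain ⟨p, hp⟩ := list_cofinal (C α) h1 α h3 s hsα
      refine ⟨splice s (C α) p, ⟨splice_strictMono s hs (C α) h1 p hp, ?_, ?_⟩, ?_⟩
      · intro i
        unfold splice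
        split_ifs with h
        · exact hsα _ (List.getElem_mem _)
        · exact h2 _
      · intro γ hγ
        obtain ⟨i, hi⟩ := h3 γ hγ
        refine ⟨s.length + i, ?_⟩
        unfold splice
        rw [dif_neg (by omega)]
        refine hi.trans_le (h1.monotone ?_)
        omega
      · intro s' hs' hsα' hαs'
        have heq : s = s' := hS s s' (fun x hx => (hsα x hx).trans hα1)
          (fun x hx => (hsα' x hx).trans hα1) α hα1 hαs hαs'
        subst heq
        exact ⟨p, hp, rfl⟩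
    · refine ⟨C α, ⟨h1, h2, h3⟩, ?_⟩
      intro s hs hsα hαs
      exact absurd ⟨s, hs, hsα, hαs⟩ hex
  choose! E hE1 hE2 using key
  exact ⟨E, hE1, hE2⟩

/-- iterated `uncountably many` quantifier -/
def Good (P : List Ordinal.{0} → Prop) : ℕ → List Ordinal.{0} → Prop
  | 0, s => P s
  | r + 1, s => ∀ γ < ω₁, ∃ x, γ < x ∧ x < ω₁ ∧ Good P r (s ++ [x])

theorem exists_good (P : ℕ → List Ordinal.{0} → Prop)
    (hP : ∀ s : List Ordinal.{0}, (∀ x ∈ s, x < ω₁) → ∃ k, P k s) (r : ℕ) :
    ∀ s : List Ordinal.{0}, (∀ x ∈ s, x < ω₁) → ∃ k, Good (P k) r s := by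
  induction r with
  | zero => exact hP
  | succ r ih =>
    intro s hs
    by_contra hcon
    push Not at hcon
    have h1 : ∀ k, ∃ γ < ω₁, ∀ x, γ < x → x < ω₁ → ¬ Good (P k) r (s ++ [x]) := by
      intro k
      have h2 := hcon k
      unfold Good at h2
      push Not at h2
      exact h2
    choose γ hγ hγ2 using h1
    set G : Ordinal.{0} := ⨆ k, γ k with hG
    have hG1 : G < ω₁ := Ordinal.iSup_lt_omega_one hγ
    have hG2 : ∀ k, γ k ≤ G := fun k => le_ciSup (bdd_of_lt γ hγ) k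
    obtain ⟨k, hk⟩ := ih (s ++ [Order.succ G]) (by
      intro x hx
      rcases List.mem_append.mp hx with h | h
      · exact hs x h
      · rw [List.mem_singleton.mp h]
        exact succ_lt_omega1 hG1)
    exact hγ2 k (Order.succ G) ((hG2 k).trans_lt (Order.lt_succ G)) (succ_lt_omega1 hG1) hk

/-- extend a good list by closure points in between -/
theorem extend_hit (P : List Ordinal.{0} → Prop) (g : Ordinal.{0} → Ordinal.{0}) (hg : Adm g) (r : ℕ) :
    ∀ s : List Ordinal.{0}, (∀ x ∈ s, x < ω₁) → Good P r s → List.Pairwise (Rel g) (0 :: s) →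
      ∃ s' : List Ordinal.{0}, s'.length = s.length + r ∧ (∀ x ∈ s', x < ω₁) ∧ P s' ∧
        List.Pairwise (Rel g) (0 :: s') := by
  induction r with
  | zero =>
    intro s hs h1 h2
    exact ⟨s, rfl, hs, h1, h2⟩
  | succ r ih =>
    intro s hs h1 h2
    have h0 : (0 : Ordinal.{0}) < ω₁ := isSuccLimit_omega1.bot_lt
    obtain ⟨u, hu, hus⟩ := list_bound ω₁ h0 (0 :: s) (by
      intro x hx
      rcases List.mem_cons.mp hx with rfl | hx
      · exact h0
      · exact hs x hx)
    obtain ⟨δ, hδ, huδ⟩ := cl_unbounded g hg u hu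
    obtain ⟨x, hx1, hx2, hx3⟩ := h1 δ hδ.1
    obtain ⟨s', h3, h4, h5, h6⟩ := ih (s ++ [x]) (by
      intro y hy
      rcases List.mem_append.mp hy with h | h
      · exact hs y h
      · rw [List.mem_singleton.mp h]
        exact hx2) hx3 (by
      rw [← List.cons_append, List.pairwise_append]
      refine ⟨h2, List.pairwise_singleton _ _, ?_⟩
      intro a ha b hb
      rw [List.mem_singleton.mp hb]
      exact ⟨δ, hδ, (hus a ha).trans_lt huδ, hx1.le⟩)
    refine ⟨s', ?_, h4, h5, h6⟩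
    rw [h3, List.length_append, List.length_singleton]
    omega

theorem Rel.lt {g : Ordinal.{0} → Ordinal.{0}} {u v : Ordinal.{0}} (h : Rel g u v) : u < v := by
  obtain ⟨δ, _, h1, h2⟩ := h
  exact h1.trans_le h2

/-- build the interleaved list -/
theorem interleave (P : List Ordinal.{0} → Prop) (g : Ordinal.{0} → Ordinal.{0})
    (hcl : ∀ δ, Cl g δ → ∀ s : List Ordinal.{0}, (∀ x ∈ s, x < δ) → ∀ r, Good P (r + 1) s →
      ∀ γ < δ, ∃ x, γ < x ∧ x < δ ∧ Good P r (s ++ [x]))
    (lo de : ℕ → Ordinal.{0}) (hlo : ∀ z, lo z < de z) (hde : ∀ z, Cl g (de z)) (hmono : Monotone de)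
    (zf : ℕ → ℕ) (hz : Monotone zf) (L : ℕ) (h0 : Good P L []) :
    ∀ q ≤ L, ∃ s : List Ordinal.{0}, s.length = q ∧ Good P (L - q) s ∧ s.Pairwise (· < ·) ∧
      ∀ i (h : i < s.length), lo (zf i) < s[i] ∧ s[i] < de (zf i) := by
  intro q
  induction q with
  | zero =>
    intro _
    exact ⟨[], rfl, h0, List.Pairwise.nil, fun i h => absurd h (by simp)⟩
  | succ q ih =>
    intro hq
    obtain ⟨s, hs1, hs2, hs3, hs4⟩ := ih (by omega)
    have hs5 : ∀ x ∈ s, x < de (zf q) := by
      intro x hx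
      obtain ⟨i, hi, rfl⟩ := List.getElem_of_mem hx
      refine (hs4 i hi).2.trans_le (hmono (hz ?_))
      omega
    obtain ⟨u, hu, hu2⟩ := list_bound (de (zf q)) (hde _).2.1 s hs5
    have e1 : L - q = (L - (q + 1)) + 1 := by omega
    rw [e1] at hs2
    obtain ⟨x, hx1, hx2, hx3⟩ := hcl _ (hde (zf q)) s hs5 _ hs2 (max u (lo (zf q)))
      (max_lt hu (hlo _))
    refine ⟨s ++ [x], ?_, hx3, ?_, ?_⟩
    · rw [List.length_append, List.length_singleton, hs1]
    · rw [List.pairwise_append]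
      refine ⟨hs3, List.pairwise_singleton _ _, ?_⟩
      intro a ha b hb
      rw [List.mem_singleton.mp hb]
      exact ((hu2 a ha).trans (le_max_left _ _)).trans_lt hx1
    · intro i hi
      rw [List.length_append, List.length_singleton] at hi
      by_cases h : i < s.length
      · rw [List.getElem_append_left h]
        exact hs4 i h
      · have h' : i = s.length := by omega
        subst h'
        rw [List.getElem_append_right (by omega)]
        simp only [Nat.sub_self, List.getElem_cons_zero]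
        rw [hs1]
        exact ⟨(le_max_right _ _).trans_lt hx1, hx2⟩

end Pool.Agent.Lib_helper33.IHP
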