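import Mathlib

namespace Pool.Agent.Lib_helper33.IHP

open Ordinal Order

/-- A disjoint type of width `n ≥ 1`: a map `t : 2n → 2` taking the value `0` exactly `n` times. -/
structure DType where
  width : ℕ
  width_pos : 1 ≤ width
  t : Fin (2 * width) → Fin 2
  zeros : (Finset.univ.filter (fun i => t i = 0)).card = width

theorem DType.ones (T : DType) : (Finset.univ.filter (fun i => T.t i = 1)).card = T.width := by
  have h := Finset.card_filter_add_card_filter_not (s := (Finset.univ : Finset (Fin (2 * T.width))))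
    (fun i => T.t i = 0)
  have h2 : (Finset.univ.filter (fun i => ¬ T.t i = 0)) = (Finset.univ.filter (fun i => T.t i = 1)) := by
    apply Finset.filter_congr
    intro i _
    omega
  rw [h2, T.zeros] at h
  simp at h
  omega

/-- The opposite type `1 - t`. -/
def DType.opp (T : DType) : DType where
  width := T.width
  width_pos := T.width_pos
  t := fun i => 1 - T.t i
  zeros := by
    refine Eq.trans ?_ T.ones
    congr 1
    apply Finset.filter_congr
    intro i _
    omega

/-- `type(a, b) = t`: there is an increasing enumeration `e` of `a ∪ b` (of length `2n`) with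
`a = {e i : t i = 0}` and `b = {e i : t i = 1}`.  (Then `a`, `b` are disjoint `n`-element sets.) -/
def HasType (T : DType) (a b : Set Ordinal.{0}) : Prop :=
  ∃ e : Fin (2 * T.width) → Ordinal.{0}, StrictMono e ∧
    a = e '' {i | T.t i = 0} ∧ b = e '' {i | T.t i = 1}

/-- `depth(t)`: the least `k < n` such that `a < b(k)` or `b < a(k)` when `type(a, b) = t`,
where the `n`-element sets `a`, `b` are given by their increasing enumerations. -/
noncomputable def DType.depth (T : DType) : ℕ :=
  sInf {k : ℕ | ∃ hk : k < T.width, ∃ a b : Fin T.width → Ordinal.{0}, StrictMono a ∧ StrictMono b ∧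
    HasType T (Set.range a) (Set.range b) ∧
      ((∀ i, a i < b ⟨k, hk⟩) ∨ (∀ i, b i < a ⟨k, hk⟩))}

/-- `t` has bounded depth. -/
def BoundedDepth (t : ℕ → DType) : Prop := ∃ d : ℕ, ∀ k, (t k).depth ≤ d

/-- A `C`-sequence; `C α i` is the `i`-th element of `C_α`. -/
def IsCSeq (C : Ordinal.{0} → ℕ → Ordinal.{0}) : Prop :=
  ∀ α, IsSuccLimit α → α < ω₁ → StrictMono (C α) ∧ (∀ i, C α i < α) ∧ ∀ γ < α, ∃ i, γ < C α i

/-- The set `C_α[n]` of the first `n` elements of `C_α`. -/
def first (C : Ordinal.{0} → ℕ → Ordinal.{0}) (α : Ordinal.{0}) (n : ℕ) : Set Ordinal.{0} :=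
  C α '' {i | i < n}

/-- The two conditions on `α, β, k` in the definition of guessing, apart from `f α = f β = k`. -/
def Realizes (t : ℕ → DType) (C : Ordinal.{0} → ℕ → Ordinal.{0}) (α β : Ordinal.{0}) (k : ℕ) : Prop :=
  Disjoint (first C α (t k).width) (first C β (t k).width) ∧
    (HasType (t k) (first C α (t k).width) (first C β (t k).width) ∨
      HasType (t k).opp (first C α (t k).width) (first C β (t k).width))

/-- `C` is `t`-guessing. -/
def Guessing (t : ℕ → DType) (C : Ordinal.{0} → ℕ → Ordinal.{0}) : Prop :=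
  ∀ f : Ordinal.{0} → ℕ, ∃ α β : Ordinal.{0}, ∃ k : ℕ, IsSuccLimit α ∧ IsSuccLimit β ∧ α < β ∧ β < ω₁ ∧
    f α = k ∧ f β = k ∧ Realizes t C α β k

/-- `C` is strongly `t`-guessing. -/
def StronglyGuessing (t : ℕ → DType) (C : Ordinal.{0} → ℕ → Ordinal.{0}) : Prop :=
  ∀ f : Ordinal.{0} → ℕ, ∃ β : Ordinal.{0}, IsSuccLimit β ∧ β < ω₁ ∧
    ∀ γ < β, ∃ α, γ < α ∧ α < β ∧ IsSuccLimit α ∧ f α = f β ∧ Realizes t C α β (f β)

/-- `D` is a closed unbounded subset of `ω₁`. -/
def IsClubOmega1 (D : Set Ordinal.{0}) : Prop :=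
  D ⊆ Set.Iio ω₁ ∧ (∀ γ < ω₁, ∃ δ ∈ D, γ < δ) ∧
    ∀ δ < ω₁, IsSuccLimit δ → (∀ γ < δ, ∃ x ∈ D, γ < x ∧ x < δ) → δ ∈ D

/-- The Interval Hitting Principle: there is a `C`-sequence such that every club `D` meets
`[C_α(k), C_α(k+1))` for all but finitely many `k`, for some `α`. -/
def IntervalHitting : Prop :=
  ∃ C : Ordinal.{0} → ℕ → Ordinal.{0}, IsCSeq C ∧ ∀ D, IsClubOmega1 D →
    ∃ α, IsSuccLimit α ∧ α < ω₁ ∧ ∀ᶠ k in Filter.atTop, (Set.Ico (C α k) (C α (k + 1)) ∩ D).Nonempty

/-- the predicate of being `0` in the word `0^k 1 0 1^k` -/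
theorem starZeros (k : ℕ) : (Finset.univ.filter (fun i : Fin (2 * (k + 1)) =>
    (if (i : ℕ) < k ∨ (i : ℕ) = k + 1 then (0 : Fin 2) else 1) = 0)).card = k + 1 := by
  have h : (Finset.univ.filter (fun i : Fin (2 * (k + 1)) =>
    (if (i : ℕ) < k ∨ (i : ℕ) = k + 1 then (0 : Fin 2) else 1) = 0)).map Fin.valEmbedding
      = insert (k + 1) (Finset.range k) := by
    ext x
    simp only [Finset.mem_map, Finset.mem_filter, Finset.mem_univ, true_and, Finset.mem_insert,
      Finset.mem_range, Fin.valEmbedding_apply]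
    constructor
    · rintro ⟨i, hi, rfl⟩
      split_ifs at hi with h
      · omega
      · exact absurd hi (by decide)
    · intro h
      refine ⟨⟨x, by omega⟩, ?_, rfl⟩
      rw [if_pos]
      simp only
      omega
  rw [← Finset.card_map Fin.valEmbedding, h, Finset.card_insert_of_notMem]
  · simp
  · simp

/-- The type `0^k 1 0 1^k` of width `k + 1`. -/
def star (k : ℕ) : DType where
  width := k + 1
  width_pos := by omega
  t := fun i => if (i : ℕ) < k ∨ (i : ℕ) = k + 1 then 0 else 1
  zeros := starZeros k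

end Pool.Agent.Lib_helper33.IHP
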