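import Pool.Agent.Lib_helper33.IHP.Defs

namespace Pool.Agent.Lib_helper33.IHP

open Ordinal Order

theorem opp_zero (T : DType) (i) : T.opp.t i = 0 ↔ T.t i = 1 := by
  show 1 - T.t i = 0 ↔ T.t i = 1
  omega

theorem opp_one (T : DType) (i) : T.opp.t i = 1 ↔ T.t i = 0 := by
  show 1 - T.t i = 1 ↔ T.t i = 0
  omega

theorem HasType.opp {T : DType} {A B : Set Ordinal.{0}} (h : HasType T A B) :
    HasType T.opp B A := by
  obtain ⟨e, he, hA, hB⟩ := h
  refine ⟨e, he, ?_, ?_⟩
  · rw [hB]
    congr 1
    ext i
    exact (opp_zero T i).symm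
  · rw [hA]
    congr 1
    ext i
    exact (opp_one T i).symm

theorem HasType.of_opp {T : DType} {A B : Set Ordinal.{0}} (h : HasType T.opp A B) :
    HasType T B A := by
  obtain ⟨e, he, hA, hB⟩ := h
  refine ⟨e, he, ?_, ?_⟩
  · rw [hB]
    congr 1
    ext i
    exact (opp_one T i)
  · rw [hA]
    congr 1
    ext i
    exact (opp_zero T i)

/-- number of ones before `i` -/
def cnt1 (T : DType) (i : Fin (2 * T.width)) : ℕ :=
  (Finset.univ.filter (fun j => j < i ∧ T.t j = 1)).card

/-- number of zeros before `i` -/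
def cnt0 (T : DType) (i : Fin (2 * T.width)) : ℕ :=
  (Finset.univ.filter (fun j => j < i ∧ T.t j = 0)).card

/-- all zeros come before the ones number `k, k+1, …` -/
def Low (T : DType) (k : ℕ) : Prop := ∀ i, T.t i = 0 → cnt1 T i ≤ k

theorem low_of_real (T : DType) (k : ℕ) (hk : k < T.width) (a b : Fin T.width → Ordinal.{0})
    (hb : StrictMono b) (h : HasType T (Set.range a) (Set.range b)) (hab : ∀ i, a i < b ⟨k, hk⟩) :
    Low T k := by
  intro p hp
  obtain ⟨e, he, hA, hB⟩ := h
  have hep : e p < b ⟨k, hk⟩ := by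
    have : e p ∈ Set.range a := by rw [hA]; exact ⟨p, hp, rfl⟩
    obtain ⟨i, hi⟩ := this
    rw [← hi]
    exact hab i
  have hq : ∀ j : Fin (2 * T.width), T.t j = 1 → ∃ q, b q = e j := by
    intro j hj
    have : e j ∈ Set.range b := by rw [hB]; exact ⟨j, hj, rfl⟩
    exact this
  have : Nonempty (Fin T.width) := ⟨⟨k, hk⟩⟩
  choose! q hq using hq
  unfold cnt1
  calc _ ≤ (Finset.range k).card := by
        apply Finset.card_le_card_of_injOn (fun j => (q j : ℕ))
        · intro j hj
          simp only [Finset.coe_filter, Finset.mem_univ, true_and, Set.mem_ofPred_eq] at hj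
          have h1 : b (q j) < b ⟨k, hk⟩ := by
            rw [hq j hj.2]
            exact (he hj.1).trans hep
          have h2 : q j < ⟨k, hk⟩ := hb.lt_iff_lt.mp h1
          have h3 : (q j : ℕ) < k := h2
          simpa using h3
        · intro j hj j' hj' hjj
          simp only [Finset.coe_filter, Finset.mem_univ, true_and, Set.mem_ofPred_eq] at hj hj'
          have h1 : q j = q j' := Fin.ext hjj
          apply he.injective
          rw [← hq j hj.2, ← hq j' hj'.2, h1]
    _ = k := by simp

theorem real_of_low (T : DType) (k : ℕ) (hk : k < T.width) (hl : Low T k) :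
    ∃ a b : Fin T.width → Ordinal.{0}, StrictMono a ∧ StrictMono b ∧
    HasType T (Set.range a) (Set.range b) ∧ (∀ i, a i < b ⟨k, hk⟩) := by
  have he : StrictMono (fun i : Fin (2 * T.width) => ((i : ℕ) : Ordinal.{0})) := by
    intro i j hij
    have : (i : ℕ) < j := hij
    exact Nat.cast_lt.mpr this
  refine ⟨fun i => (((Finset.univ.filter (fun i => T.t i = 0)).orderEmbOfFin T.zeros i : ℕ) : Ordinal.{0}),
    fun i => (((Finset.univ.filter (fun i => T.t i = 1)).orderEmbOfFin T.ones i : ℕ) : Ordinal.{0}),
    ?_, ?_, ⟨_, he, ?_, ?_⟩, ?_⟩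
  · intro i j hij
    exact he ((Finset.orderEmbOfFin _ _).strictMono hij)
  · intro i j hij
    exact he ((Finset.orderEmbOfFin _ _).strictMono hij)
  · ext x
    constructor
    · rintro ⟨i, rfl⟩
      refine ⟨(Finset.univ.filter (fun i => T.t i = 0)).orderEmbOfFin T.zeros i, ?_, rfl⟩
      exact (Finset.mem_filter.mp
        (Finset.orderEmbOfFin_mem (Finset.univ.filter (fun i => T.t i = 0)) T.zeros i)).2
    · rintro ⟨j, hj, rfl⟩
      have : j ∈ Set.range ((Finset.univ.filter (fun i => T.t i = 0)).orderEmbOfFin T.zeros) := by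
        rw [Finset.range_orderEmbOfFin]
        simpa using hj
      obtain ⟨i, hi⟩ := this
      exact ⟨i, by simp only [hi]⟩
  · ext x
    constructor
    · rintro ⟨i, rfl⟩
      refine ⟨(Finset.univ.filter (fun i => T.t i = 1)).orderEmbOfFin T.ones i, ?_, rfl⟩
      exact (Finset.mem_filter.mp
        (Finset.orderEmbOfFin_mem (Finset.univ.filter (fun i => T.t i = 1)) T.ones i)).2
    · rintro ⟨j, hj, rfl⟩
      have : j ∈ Set.range ((Finset.univ.filter (fun i => T.t i = 1)).orderEmbOfFin T.ones) := by
        rw [Finset.range_orderEmbOfFin]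
        simpa using hj
      obtain ⟨i, hi⟩ := this
      exact ⟨i, by simp only [hi]⟩
  · intro i
    by_contra hcon
    push Not at hcon
    set p := (Finset.univ.filter (fun i => T.t i = 0)).orderEmbOfFin T.zeros i with hp
    have hp0 : T.t p = 0 := by
      exact (Finset.mem_filter.mp
        (Finset.orderEmbOfFin_mem (Finset.univ.filter (fun i => T.t i = 0)) T.zeros i)).2
    have h1 := hl p hp0
    set F := (Finset.univ.filter (fun i => T.t i = 1)).orderEmbOfFin T.ones with hF
    have hF1 : ∀ q, T.t (F q) = 1 := by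
      intro q
      exact (Finset.mem_filter.mp
        (Finset.orderEmbOfFin_mem (Finset.univ.filter (fun i => T.t i = 1)) T.ones q)).2
    have hFk : F ⟨k, hk⟩ ≤ p := by
      have : ((F ⟨k, hk⟩ : ℕ) : Ordinal.{0}) ≤ ((p : ℕ) : Ordinal.{0}) := hcon
      exact_mod_cast this
    have h2 : k + 1 ≤ cnt1 T p := by
      unfold cnt1
      calc k + 1 = (Finset.univ : Finset (Fin (k + 1))).card := by simp
        _ ≤ _ := by
          apply Finset.card_le_card_of_injOn (fun q : Fin (k + 1) => F ⟨q, by omega⟩)
          · intro q _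
            simp only [Finset.coe_filter, Finset.mem_univ, true_and, Set.mem_ofPred_eq]
            refine ⟨?_, hF1 _⟩
            have h3 : F ⟨q, by omega⟩ ≤ F ⟨k, hk⟩ := by
              apply F.monotone
              have := q.2
              simp only [Fin.mk_le_mk]
              omega
            refine lt_of_le_of_ne (h3.trans hFk) ?_
            intro h4
            have := hF1 ⟨q, by omega⟩
            rw [h4, hp0] at this
            exact absurd this (by decide)
          · intro q _ q' _ hqq
            have := F.injective hqq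
            simp only [Fin.mk.injEq] at this
            exact Fin.ext this
    omega

theorem mem_depthSet_iff (T : DType) (k : ℕ) :
    (∃ hk : k < T.width, ∃ a b : Fin T.width → Ordinal.{0}, StrictMono a ∧ StrictMono b ∧
    HasType T (Set.range a) (Set.range b) ∧
      ((∀ i, a i < b ⟨k, hk⟩) ∨ (∀ i, b i < a ⟨k, hk⟩))) ↔
    k < T.width ∧ (Low T k ∨ Low T.opp k) := by
  constructor
  · rintro ⟨hk, a, b, ha, hb, h, h1 | h1⟩
    · exact ⟨hk, Or.inl (low_of_real T k hk a b hb h h1)⟩
    · exact ⟨hk, Or.inr (low_of_real T.opp k hk b a ha h.opp h1)⟩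
  · rintro ⟨hk, h1 | h1⟩
    · obtain ⟨a, b, ha, hb, h, hab⟩ := real_of_low T k hk h1
      exact ⟨hk, a, b, ha, hb, h, Or.inl hab⟩
    · obtain ⟨a, b, ha, hb, h, hab⟩ := real_of_low T.opp k hk h1
      exact ⟨hk, b, a, hb, ha, h.of_opp, Or.inr hab⟩

theorem depth_eq (T : DType) :
    T.depth = sInf {k : ℕ | k < T.width ∧ (Low T k ∨ Low T.opp k)} := by
  unfold DType.depth
  congr 1
  ext k
  exact mem_depthSet_iff T k

theorem depthSet_nonempty (T : DType) :
    ({k : ℕ | k < T.width ∧ (Low T k ∨ Low T.opp k)}).Nonempty := by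
  have hw := T.width_pos
  have key : ∀ U : DType, U.t ⟨2 * U.width - 1, by have := U.width_pos; omega⟩ = 1 →
      Low U (U.width - 1) := by
    intro U hU i hi
    unfold cnt1
    have hw := U.width_pos
    have h1 : (Finset.univ.filter (fun j => j < i ∧ U.t j = 1)) ⊆
        (Finset.univ.filter (fun j => U.t j = 1)).erase ⟨2 * U.width - 1, by omega⟩ := by
      intro j hj
      simp only [Finset.mem_filter, Finset.mem_univ, true_and, Finset.mem_erase] at hj ⊢
      refine ⟨?_, hj.2⟩
      rintro rfl
      have := hj.1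
      have h2 := i.2
      have h3 : (2 * U.width - 1 : ℕ) < i := this
      omega
    have h2 := Finset.card_le_card h1
    rw [Finset.card_erase_of_mem (by simpa using hU), U.ones] at h2
    exact h2
  refine ⟨T.width - 1, by omega, ?_⟩
  by_cases h : T.t ⟨2 * T.width - 1, by omega⟩ = 1
  · exact Or.inl (key T h)
  · right
    have h0 : T.t ⟨2 * T.width - 1, by omega⟩ = 0 := by omega
    have := key T.opp ((opp_one T _).mpr h0)
    exact this

theorem low_of_depth_le (T : DType) (d : ℕ) (h : T.depth ≤ d) :
    ∃ m ≤ d, m < T.width ∧ (Low T m ∨ Low T.opp m) := by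
  have h1 := Nat.sInf_mem (depthSet_nonempty T)
  rw [← depth_eq] at h1
  exact ⟨T.depth, h, h1.1, h1.2⟩

theorem star_depth (k : ℕ) : (star k).depth ≤ 1 := by
  rw [depth_eq]
  rcases Nat.eq_zero_or_pos k with rfl | hk
  · have h1 := Nat.sInf_mem (depthSet_nonempty (star 0))
    have h2 := h1.1
    have h3 : (star 0).width = 1 := rfl
    omega
  · apply Nat.sInf_le
    refine ⟨?_, Or.inl ?_⟩
    · show 1 < k + 1
      omega
    · intro i hi
      have hi' : (if (i : ℕ) < k ∨ (i : ℕ) = k + 1 then (0 : Fin 2) else 1) = 0 := hi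
      have h2 : (i : ℕ) < k ∨ (i : ℕ) = k + 1 := by
        by_contra hc
        rw [if_neg hc] at hi'
        exact absurd hi' (by decide)
      unfold cnt1
      rw [Finset.card_le_one]
      have aux : ∀ a : Fin (2 * (star k).width), a < i → (star k).t a = 1 → (a : ℕ) = k := by
        intro a ha ha1
        have ha' : (if (a : ℕ) < k ∨ (a : ℕ) = k + 1 then (0 : Fin 2) else 1) = 1 := ha1
        have h3 : ¬ ((a : ℕ) < k ∨ (a : ℕ) = k + 1) := by
          intro hc
          rw [if_pos hc] at ha'
          exact absurd ha' (by decide)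
        have h4 : (a : ℕ) < i := ha
        omega
      intro a ha b hb
      simp only [Finset.mem_filter, Finset.mem_univ, true_and] at ha hb
      apply Fin.ext
      rw [aux a ha.1 ha.2, aux b hb.1 hb.2]

theorem star_boundedDepth : BoundedDepth star := ⟨1, star_depth⟩

end Pool.Agent.Lib_helper33.IHP
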