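import Pool.Agent.Lib_helper33.IHP.Build

namespace Pool.Agent.Lib_helper33.IHP

open Ordinal Order

/-- the property of witnesses -/
def Wit (S : List Ordinal.{0} → Set Ordinal.{0}) (f : Ordinal.{0} → ℕ) (k : ℕ)
    (P : List Ordinal.{0} → Prop) : ℕ → List Ordinal.{0} → Ordinal.{0} → Prop
  | 0, s, x => IsSuccLimit x ∧ x ∈ S s ∧ f x = k
  | r + 1, s, x => Good P r (s ++ [x])

theorem exists_closing (Q : ℕ → List Ordinal.{0} → Ordinal.{0} → Prop) :
    ∃ g, Adm g ∧ ∀ δ, Cl g δ → ∀ i s, (∀ x ∈ s, x < δ) → ∀ γ < δ,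
      (∀ γ' < ω₁, ∃ x, γ' < x ∧ x < ω₁ ∧ Q i s x) → ∃ x, γ < x ∧ x < δ ∧ Q i s x := by
  have h1 : ∀ (i : ℕ) (s : List Ordinal.{0}) (γ : Ordinal.{0}), ∃ w, w < ω₁ ∧
      ((∃ x, γ < x ∧ x < ω₁ ∧ Q i s x) → γ < w ∧ Q i s w) := by
    intro i s γ
    by_cases h : ∃ x, γ < x ∧ x < ω₁ ∧ Q i s x
    · obtain ⟨x, hx1, hx2, hx3⟩ := h
      exact ⟨x, hx2, fun _ => ⟨hx1, hx3⟩⟩
    · exact ⟨0, isSuccLimit_omega1.bot_lt, fun h' => absurd h' h⟩
  choose W hW1 hW2 using h1
  obtain ⟨g, hg, hg2⟩ := exists_closure_list W (fun i s x _ => hW1 i s x)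
  refine ⟨g, hg, ?_⟩
  intro δ hδ i s hs γ hγ hex
  obtain ⟨u, hu, hu2⟩ := list_bound δ hδ.2.1 s hs
  have hu' : max u γ < δ := max_lt hu hγ
  have h2 := hg2 i s (max u γ) (hu'.trans hδ.1) (fun y hy => (hu2 y hy).trans (le_max_left _ _))
  have h3 := hW2 i s (max u γ) (hex _ (hu'.trans hδ.1))
  exact ⟨W i s (max u γ), (le_max_right _ _).trans_lt h3.1, h2.trans_lt (hδ.2.2 _ hu'), h3.2⟩

theorem strong_of_ihp (h : IntervalHitting) :
    ∃ E, IsCSeq E ∧ ∀ t, BoundedDepth t → StronglyGuessing t E := by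
  obtain ⟨C, hC, hpos⟩ := pos_of_ihp h
  obtain ⟨S, hS1, hS2⟩ := exists_disjoint_pos C hC hpos
  obtain ⟨E, hE, hE2⟩ := exists_E C hC S hS2
  refine ⟨E, hE, ?_⟩
  rintro t ⟨d, hd⟩ f
  obtain ⟨k, hk⟩ := exists_good (fun k s => Pos C (S s ∩ {α | f α = k})) (by
    intro s hs
    obtain ⟨k, hk⟩ := (hS1 s hs).sigma (fun k : ℕ => {α | f α = k}) (fun α _ => ⟨_, rfl⟩)
    exact ⟨k, hk⟩) (d + 1) [] (by simp)
  set P : List Ordinal.{0} → Prop := fun s => Pos C (S s ∩ {α | f α = k}) with hP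
  obtain ⟨g, hg, hcl⟩ := exists_closing (Wit S f k P)
  obtain ⟨s', hs'1, hs'2, hs'3, hs'4⟩ := extend_hit P g hg (d + 1) [] (by simp) hk
    (List.pairwise_singleton _ _)
  have h0 : (0 : Ordinal.{0}) < ω₁ := isSuccLimit_omega1.bot_lt
  rw [List.length_nil, zero_add] at hs'1
  obtain ⟨ξ, hξ, hξ2⟩ := list_bound ω₁ h0 s' hs'2
  obtain ⟨η, ⟨hηS, hηk⟩, hη, hη1, hξη, hηrel⟩ := Pos.gt hC hs'3 hξ g hg
  have hηk' : f η = k := hηk
  rw [List.pairwise_cons] at hs'4
  have hs'sorted : s'.Pairwise (· < ·) := hs'4.2.imp Rel.lt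
  have hs'η : ∀ x ∈ s', x < η := fun x hx => (hξ2 x hx).trans_lt hξη
  obtain ⟨p, hp, hEη⟩ := hE2 η hη hη1 s' hs'sorted hs'η hηS
  obtain ⟨hEη1, hEη2, hEη3⟩ := hE η hη hη1
  -- closure points between consecutive elements of E η
  have hrel : ∀ i, Rel g (E η i) (E η (i + 1)) := by
    intro i
    rw [hEη]
    unfold splice
    by_cases h1 : i + 1 < s'.length
    · rw [dif_pos h1, dif_pos (by omega)]
      exact List.pairwise_iff_getElem.mp hs'4.2 i (i + 1) _ _ (by omega)
    · rw [dif_neg h1]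
      by_cases h2 : i < s'.length
      · rw [dif_pos h2]
        have h3 : i + 1 - s'.length = 0 := by omega
        rw [h3]
        obtain ⟨δ, h4, h5, h6⟩ := hηrel p
        exact ⟨δ, h4, (hp _ (List.getElem_mem _)).trans_lt h5, h6⟩
      · rw [dif_neg h2]
        have h3 : p + 1 + (i + 1 - s'.length) = p + 1 + (i - s'.length) + 1 := by omega
        rw [h3]
        exact hηrel _
  have hrel0 : Rel g 0 (E η 0) := by
    rw [hEη]
    unfold splice
    rw [dif_pos (by omega)]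
    exact hs'4.1 _ (List.getElem_mem _)
  have hηcl : Cl g η := by
    refine ⟨hη1, hη.bot_lt, ?_⟩
    intro x hx
    obtain ⟨i, hi⟩ := hEη3 x hx
    obtain ⟨δ, h4, h5, h6⟩ := hrel i
    exact (h4.2.2 x (hi.trans h5)).trans (h6.trans_lt (hEη2 _))
  -- lower bounds and closure points
  let lo : ℕ → Ordinal.{0} := fun z => if z = 0 then 0 else E η (z - 1)
  have hlorel : ∀ z, Rel g (lo z) (E η z) := by
    intro z
    show Rel g (if z = 0 then 0 else E η (z - 1)) (E η z)
    by_cases hz : z = 0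
    · rw [if_pos hz, hz]
      exact hrel0
    · rw [if_neg hz]
      have := hrel (z - 1)
      rw [Nat.sub_add_cancel (by omega)] at this
      exact this
  choose de hde1 hde2 hde3 using hlorel
  have hdemono : Monotone de := by
    apply monotone_nat_of_le_succ
    intro z
    have h1 : lo (z + 1) = E η z := by
      show (if z + 1 = 0 then 0 else E η (z + 1 - 1)) = E η z
      rw [if_neg (by omega)]
      rfl
    have h2 := hde2 (z + 1)
    rw [h1] at h2
    exact (hde3 z).trans h2.le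
  -- the main construction for a type with all zeros low
  have main : ∀ (T : DType) (m : ℕ), m ≤ d → Low T m → ∀ γ < η, ∃ α, γ < α ∧ α < η ∧ IsSuccLimit α ∧
      f α = k ∧ HasType T (first E η T.width) (first E α T.width) := by
    intro T m hm hl γ hγ
    obtain ⟨s, hs1, hs2, hs3, hs4⟩ := interleave P g (by
      intro δ hδ s hs r hr γ hγ
      exact hcl δ hδ (r + 1) s hs γ hγ hr) lo de hde2 hde1 hdemono (zz T) (zz_mono T) (d + 1) hk
      (d + 1) le_rfl
    rw [Nat.sub_self] at hs2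
    have hsP : Pos C (S s ∩ {α | f α = k}) := hs2
    have hsη : ∀ x ∈ s, x < η := by
      intro x hx
      obtain ⟨i, hi, rfl⟩ := List.getElem_of_mem hx
      exact ((hs4 i hi).2.trans_le (hde3 _)).trans (hEη2 _)
    obtain ⟨u, hu, hu2⟩ := list_bound η hη.bot_lt s hsη
    obtain ⟨α, hα1, hα2, hα3, hα4, hα5⟩ := hcl η hηcl 0 s hsη (max u γ) (max_lt hu hγ) (by
      intro γ' hγ'
      obtain ⟨α, ⟨h1, h1'⟩, h2, h3, h4, _⟩ := Pos.gt hC hsP hγ' (fun _ => 0) (fun _ _ => h0)
      exact ⟨α, h4, h3, h2, h1, h1'⟩)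
    refine ⟨α, (le_max_right _ _).trans_lt hα1, hα2, hα3, hα5, ?_⟩
    have hαω : α < ω₁ := hα2.trans hη1
    have hsα : ∀ x ∈ s, x < α := fun x hx => ((hu2 x hx).trans (le_max_left _ _)).trans_lt hα1
    obtain ⟨p', hp', hEα⟩ := hE2 α hα3 hαω s hs3 hsα hα4
    obtain ⟨hEα1, _, _⟩ := hE α hα3 hαω
    have hval : ∀ q (hq : q < s.length), E α q = s[q] := by
      intro q hq
      rw [hEα]
      unfold splice
      rw [dif_pos hq]
    apply merge T (E η) (E α) hEη1 hEα1
    · intro q hq hzz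
      have hqs : q < s.length := by
        by_contra hcon
        have : zz T q = T.width := zz_eq_width T m q hl (by omega)
        omega
      rw [hval q hqs]
      exact (hs4 q hqs).2.trans_le (hde3 _)
    · intro q hq hzz
      have hlo : ∀ z, 0 < z → lo z = E η (z - 1) := by
        intro z hz
        show (if z = 0 then 0 else E η (z - 1)) = E η (z - 1)
        rw [if_neg (by omega)]
      by_cases hqs : q < s.length
      · rw [hval q hqs, ← hlo _ hzz]
        exact (hs4 q hqs).1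
      · have hd' : d < s.length := by omega
        have h1 := (hs4 d hd').1
        have h2 : zz T d = T.width := zz_eq_width T m d hl hm
        rw [h2, hlo _ T.width_pos, ← hval d hd'] at h1
        calc E η (zz T q - 1) ≤ E η (T.width - 1) := by
              apply hEη1.monotone
              have := zz_le T q
              omega
          _ < E α d := h1
          _ < E α q := hEα1 (by omega)
  refine ⟨η, hη, hη1, ?_⟩
  intro γ hγ
  rw [hηk']
  obtain ⟨m, hm, _, hlow | hlow⟩ := low_of_depth_le (t k) d (hd k)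
  · obtain ⟨α, h1, h2, h3, h4, h5⟩ := main (t k) m hm hlow γ hγ
    exact ⟨α, h1, h2, h3, h4, h5.disjoint.symm, Or.inr h5.opp⟩
  · obtain ⟨α, h1, h2, h3, h4, h5⟩ := main (t k).opp m hm hlow γ hγ
    have h6 : HasType (t k) (first E α (t k).width) (first E η (t k).width) := h5.of_opp
    exact ⟨α, h1, h2, h3, h4, h6.disjoint, Or.inl h6⟩

end Pool.Agent.Lib_helper33.IHP
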