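import Pool.Agent.Lib_helper33.IHP.Defs

namespace Pool.Agent.Lib_helper33.IHP

open Ordinal Order

theorem star_t (k : ℕ) (i : Fin (2 * (star k).width)) :
    (star k).t i = if (i : ℕ) < k ∨ (i : ℕ) = k + 1 then 0 else 1 := rfl

/-- what a realization of `0^k 1 0 1^k` says -/
theorem star_real (k : ℕ) (hk : 1 ≤ k) (C : Ordinal.{0} → ℕ → Ordinal.{0}) (α β : Ordinal.{0})
    (hα : StrictMono (C α)) (hβ : StrictMono (C β))
    (h : HasType (star k) (first C α (star k).width) (first C β (star k).width)) :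
    C α (k - 1) < C β 0 ∧ C β 0 < C α k := by
  obtain ⟨e, he, hA, hB⟩ := h
  have hw : (star k).width = k + 1 := rfl
  have hkk : k < 2 * (star k).width := by rw [hw]; omega
  have hkk1 : k + 1 < 2 * (star k).width := by rw [hw]; omega
  have tk : (star k).t ⟨k, hkk⟩ = 1 := by
    rw [star_t, if_neg]
    simp
  have tk1 : (star k).t ⟨k + 1, hkk1⟩ = 0 := by
    rw [star_t, if_pos]
    simp
  -- `C β 0 = e k`
  have h0 : C β 0 = e ⟨k, hkk⟩ := by
    apply le_antisymm
    · have : e ⟨k, hkk⟩ ∈ first C β (star k).width := by rw [hB]; exact ⟨_, tk, rfl⟩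
      obtain ⟨i, _, hi⟩ := this
      rw [← hi]
      exact hβ.monotone (Nat.zero_le i)
    · have : C β 0 ∈ first C β (star k).width := ⟨0, by show 0 < (star k).width; rw [hw]; omega, rfl⟩
      rw [hB] at this
      obtain ⟨i, hi, hi'⟩ := this
      rw [← hi']
      apply he.monotone
      have hi2 : (star k).t i = 1 := hi
      rw [star_t] at hi2
      have h3 : ¬ ((i : ℕ) < k ∨ (i : ℕ) = k + 1) := by
        intro hc
        rw [if_pos hc] at hi2
        exact absurd hi2 (by decide)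
      show k ≤ (i : ℕ)
      omega
  have aux : ∀ q ≤ k, ∃ p : Fin (2 * (star k).width), e p = C α q ∧ ((p : ℕ) < k ∨ (p : ℕ) = k + 1) := by
    intro q hq
    have : C α q ∈ first C α (star k).width := ⟨q, by show q < (star k).width; rw [hw]; omega, rfl⟩
    rw [hA] at this
    obtain ⟨p, hp, hp'⟩ := this
    refine ⟨p, hp', ?_⟩
    have hp2 : (star k).t p = 0 := hp
    rw [star_t] at hp2
    by_contra hc
    rw [if_neg hc] at hp2
    exact absurd hp2 (by decide)
  obtain ⟨p1, hp1, hp1'⟩ := aux (k - 1) (by omega)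
  obtain ⟨p2, hp2, hp2'⟩ := aux k le_rfl
  have h12 : p1 < p2 := by
    rw [← he.lt_iff_lt, hp1, hp2]
    exact hα (by omega)
  have h12' : (p1 : ℕ) < p2 := h12
  constructor
  · rw [h0, ← hp1]
    apply he
    show (p1 : ℕ) < k
    omega
  · -- e (k+1) is one of the first k+1 elements of C α
    have : e ⟨k + 1, hkk1⟩ ∈ first C α (star k).width := by rw [hA]; exact ⟨_, tk1, rfl⟩
    obtain ⟨i, hi, hi'⟩ := this
    have hi2 : i < k + 1 := hi
    rw [h0]
    calc e ⟨k, hkk⟩ < e ⟨k + 1, hkk1⟩ := he (by show k < k + 1; omega)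
      _ = C α i := hi'.symm
      _ ≤ C α k := hα.monotone (by omega)

theorem exists_coloring (D : Set Ordinal.{0}) (hD : IsClubOmega1 D) :
    ∃ j : Ordinal.{0} → ℕ, ∀ x y, x < y → y < ω₁ → (∀ δ ∈ D, δ ≤ x ∨ y < δ) → j x ≠ j y := by
  have hinj : ∀ δ : Ordinal.{0}, δ < ω₁ → ∃ g : Ordinal.{0} → ℕ, Set.InjOn g (Set.Iio δ) := by
    intro δ hδ
    have : (Set.Iio δ).Countable := by
      rw [← Cardinal.le_aleph0_iff_set_countable]
      rw [Cardinal.mk_Iio_ordinal]
      rw [← Cardinal.lift_aleph0.{1, 0}, Cardinal.lift_le]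
      rw [← Cardinal.lt_aleph_one_iff, ← Cardinal.lt_ord, Cardinal.ord_aleph]
      exact hδ
    rw [Set.countable_iff_exists_injOn] at this
    exact this
  choose! g hg using hinj
  have htop : ∀ x : Ordinal.{0}, x < ω₁ → ∃ δ, δ ∈ D ∧ x < δ := by
    intro x hx
    exact hD.2.1 x hx
  let top : Ordinal.{0} → Ordinal.{0} := fun x => sInf {δ | δ ∈ D ∧ x < δ}
  refine ⟨fun x => g (top x) x, ?_⟩
  intro x y hxy hy hfree
  have hx : x < ω₁ := hxy.trans hy
  have hmx : top x ∈ D ∧ x < top x := csInf_mem (s := {δ | δ ∈ D ∧ x < δ}) (htop x hx)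
  have hmy : top y ∈ D ∧ y < top y := csInf_mem (s := {δ | δ ∈ D ∧ y < δ}) (htop y hy)
  have heq : top x = top y := by
    apply le_antisymm
    · exact csInf_le' ⟨hmy.1, hxy.trans hmy.2⟩
    · refine csInf_le' ⟨hmx.1, ?_⟩
      rcases hfree (top x) hmx.1 with h | h
      · exact absurd hmx.2 (not_lt.mpr h)
      · exact h
  have hlt : top y < ω₁ := hD.1 hmy.1
  intro hcon
  have hcon' : g (top x) x = g (top y) y := hcon
  rw [heq] at hcon'
  exact absurd (hg (top y) hlt (by show x < top y; exact hxy.trans hmy.2) hmy.2 hcon') hxy.ne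

/-- the color attached to the index `k` -/
def kap (k : ℕ) : ℕ := ((k - 1) - (Nat.sqrt (k - 1)) * Nat.sqrt (k - 1)) / 2

theorem kap_eq (m r : ℕ) (hr : r ≤ m + m) : kap (m * m + r + 1) = r / 2 := by
  unfold kap
  have h1 : m * m + r + 1 - 1 = m * m + r := by omega
  rw [h1, Nat.sqrt_add_eq m hr]
  congr 1
  omega

theorem ihp_of_guessing (C : Ordinal.{0} → ℕ → Ordinal.{0}) (hC : IsCSeq C)
    (hg : Guessing star C) : IntervalHitting := by
  by_contra hno
  unfold IntervalHitting at hno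
  push Not at hno
  have hC' : IsCSeq (fun α m => C α (m * m)) := by
    intro α hα hα1
    obtain ⟨h1, h2, h3⟩ := hC α hα hα1
    refine ⟨?_, fun i => h2 _, ?_⟩
    · intro i j hij
      apply h1
      exact Nat.mul_self_lt_mul_self hij
    · intro γ hγ
      obtain ⟨i, hi⟩ := h3 γ hγ
      exact ⟨i, hi.trans_le (h1.monotone (Nat.le_mul_self i))⟩
  obtain ⟨D, hD, hD2⟩ := hno _ hC'
  obtain ⟨j, hj⟩ := exists_coloring D hD
  -- choose the value of f
  have key : ∀ α : Ordinal.{0}, IsSuccLimit α → α < ω₁ → ∃ k : ℕ, 1 ≤ k ∧ kap k = j (C α 0) ∧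
      ∀ x, C α (k - 1) < x → x < C α k → j x ≠ j (C α 0) := by
    intro α hα hα1
    obtain ⟨h1, h2, h3⟩ := hC α hα hα1
    set c := j (C α 0) with hc
    have hfr := hD2 α hα hα1
    obtain ⟨m, hm, hmD⟩ := (Filter.frequently_atTop.mp hfr) (c + 1)
    have hfree : ∀ δ ∈ D, δ < C α (m * m) ∨ C α ((m + 1) * (m + 1)) ≤ δ := by
      intro δ hδ
      by_contra hcon
      push Not at hcon
      exact Set.notMem_empty δ (hmD ▸ (⟨hcon, hδ⟩ : δ ∈ Set.Ico (C α (m * m)) (C α ((m + 1) * (m + 1))) ∩ D))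
    by_contra hcon
    push Not at hcon
    have e1 := kap_eq m (2 * c) (by omega)
    have e2 := kap_eq m (2 * c + 1) (by omega)
    obtain ⟨x, hx1, hx2, hx3⟩ := hcon (m * m + 2 * c + 1) (by omega) (by rw [e1]; omega)
    obtain ⟨y, hy1, hy2, hy3⟩ := hcon (m * m + (2 * c + 1) + 1) (by omega) (by rw [e2]; omega)
    have hsq : (m + 1) * (m + 1) = m * m + 2 * m + 1 := by ring
    have hxy : x < y := by
      refine hx2.trans ?_
      have e3 : m * m + 2 * c + 1 = m * m + (2 * c + 1) + 1 - 1 := by omega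
      rw [e3]
      exact hy1
    have b1 : C α (m * m) ≤ x := by
      refine le_trans ?_ hx1.le
      apply h1.monotone
      omega
    have b2 : y < C α ((m + 1) * (m + 1)) := by
      refine hy2.trans_le ?_
      apply h1.monotone
      rw [hsq]
      omega
    refine hj x y hxy (b2.trans ((h2 _).trans hα1)) ?_ (hx3.trans hy3.symm)
    intro δ hδ
    rcases hfree δ hδ with h | h
    · left; exact h.le.trans b1
    · right; exact b2.trans_le h
  choose! f hf1 hf2 hf3 using key
  obtain ⟨α, β, k, hα, hβ, hαβ, hβ1, hfα, hfβ, hdis, hreal⟩ := hg f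
  have hα1 : α < ω₁ := hαβ.trans hβ1
  have sα := (hC α hα hα1).1
  have sβ := (hC β hβ hβ1).1
  have c1 := hf2 α hα hα1
  have c2 := hf2 β hβ hβ1
  have g1 := hf3 α hα hα1
  have g2 := hf3 β hβ hβ1
  have k1 := hf1 α hα hα1
  rw [hfα] at c1 g1 k1
  rw [hfβ] at c2 g2
  have c12 : j (C α 0) = j (C β 0) := c1.symm.trans c2
  rcases hreal with h | h
  · obtain ⟨h1, h2⟩ := star_real k k1 C α β sα sβ h
    exact g1 _ h1 h2 c12.symm
  · have h' : HasType (star k) (first C β (star k).width) (first C α (star k).width) := by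
      obtain ⟨e, he, hA, hB⟩ := h
      refine ⟨e, he, ?_, ?_⟩
      · rw [hB]
        congr 1
        ext i
        show 1 - (star k).t i = 1 ↔ (star k).t i = 0
        omega
      · rw [hA]
        congr 1
        ext i
        show 1 - (star k).t i = 0 ↔ (star k).t i = 1
        omega
    obtain ⟨h1, h2⟩ := star_real k k1 C β α sβ sα h'
    exact g2 _ h1 h2 c12

end Pool.Agent.Lib_helper33.IHP
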