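import Pool.Agent.Lib_helper33.IHP.Defs

namespace Pool.Agent.Lib_helper33.IHP

open Ordinal Order

theorem countable_Iio {δ : Ordinal.{0}} (hδ : δ < ω₁) : (Set.Iio δ).Countable := by
  rw [← Cardinal.le_aleph0_iff_set_countable]
  rw [Cardinal.mk_Iio_ordinal]
  rw [← Cardinal.lift_aleph0.{1, 0}, Cardinal.lift_le]
  rw [← Cardinal.lt_aleph_one_iff, ← Cardinal.lt_ord, Cardinal.ord_aleph]
  exact hδ

theorem isSuccLimit_omega1 : IsSuccLimit (ω₁ : Ordinal.{0}) := Cardinal.isSuccLimit_omega 1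

theorem succ_lt_omega1 {δ : Ordinal.{0}} (hδ : δ < ω₁) : Order.succ δ < ω₁ :=
  isSuccLimit_omega1.succ_lt hδ

theorem countable_Iic {δ : Ordinal.{0}} (hδ : δ < ω₁) : (Set.Iic δ).Countable := by
  have := countable_Iio (succ_lt_omega1 hδ)
  refine this.mono ?_
  intro x hx
  exact Order.lt_succ_iff.mpr (Set.mem_Iic.mp hx)

/-- `g` maps `ω₁` to `ω₁` -/
def Adm (g : Ordinal.{0} → Ordinal.{0}) : Prop := ∀ x < ω₁, g x < ω₁

/-- `δ` is a countable nonzero closure point of `g` -/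
def Cl (g : Ordinal.{0} → Ordinal.{0}) (δ : Ordinal.{0}) : Prop :=
  δ < ω₁ ∧ 0 < δ ∧ ∀ x < δ, g x < δ

/-- there is a closure point in `(u, v]` -/
def Rel (g : Ordinal.{0} → Ordinal.{0}) (u v : Ordinal.{0}) : Prop := ∃ δ, Cl g δ ∧ u < δ ∧ δ ≤ v

def Pos (C : Ordinal.{0} → ℕ → Ordinal.{0}) (X : Set Ordinal.{0}) : Prop :=
  ∀ g, Adm g → ∃ α ∈ X, IsSuccLimit α ∧ α < ω₁ ∧ ∀ i, Rel g (C α i) (C α (i + 1))

theorem bdd_of_lt {ι : Type*} (f : ι → Ordinal.{0}) (h : ∀ i, f i < ω₁) : BddAbove (Set.range f) :=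
  ⟨ω₁, by rintro _ ⟨i, rfl⟩; exact (h i).le⟩

theorem exists_closure {ι : Type*} [Countable ι] (W : ι → Ordinal.{0} → Ordinal.{0})
    (hW : ∀ i, Adm (W i)) : ∃ g, Adm g ∧ ∀ i x, x < ω₁ → W i x ≤ g x := by
  refine ⟨fun x => ⨆ i, W i x, ?_, ?_⟩
  · intro x hx
    exact Ordinal.iSup_lt_omega_one (fun i => hW i x hx)
  · intro i x hx
    exact le_ciSup (bdd_of_lt _ (fun i => hW i x hx)) i

theorem exists_closure_list (W : ℕ → List Ordinal.{0} → Ordinal.{0} → Ordinal.{0})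
    (hW : ∀ i s x, x < ω₁ → W i s x < ω₁) : ∃ g, Adm g ∧ ∀ i s x, x < ω₁ → (∀ y ∈ s, y ≤ x) →
      W i s x ≤ g x := by
  refine ⟨fun x => ⨆ p : ℕ × List (Set.Iic x), W p.1 (p.2.map Subtype.val) x, ?_, ?_⟩
  · intro x hx
    have : Countable (Set.Iic x) := (countable_Iic hx).to_subtype
    exact Ordinal.iSup_lt_omega_one (fun p => hW _ _ x hx)
  · intro i s x hx hs
    have h1 : W i s x = W (i, s.attach.map (fun y => (⟨y.1, hs y.1 y.2⟩ : Set.Iic x))).1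
        ((i, s.attach.map (fun y => (⟨y.1, hs y.1 y.2⟩ : Set.Iic x))).2.map Subtype.val) x := by
      simp
    rw [h1]
    exact le_ciSup (f := fun p : ℕ × List (Set.Iic x) => W p.1 (p.2.map Subtype.val) x)
      (bdd_of_lt _ (fun p => hW _ _ x hx)) _

theorem Cl.mono {g g' : Ordinal.{0} → Ordinal.{0}} (h : ∀ x < ω₁, g x ≤ g' x) {δ} (hδ : Cl g' δ) :
    Cl g δ := by
  refine ⟨hδ.1, hδ.2.1, fun x hx => ?_⟩
  exact (h x (hx.trans hδ.1)).trans_lt (hδ.2.2 x hx)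

theorem Rel.mono {g g' : Ordinal.{0} → Ordinal.{0}} (h : ∀ x < ω₁, g x ≤ g' x) {u v}
    (hr : Rel g' u v) : Rel g u v := by
  obtain ⟨δ, h1, h2, h3⟩ := hr
  exact ⟨δ, h1.mono h, h2, h3⟩

theorem cl_unbounded (g : Ordinal.{0} → Ordinal.{0}) (hg : Adm g) (γ : Ordinal.{0}) (hγ : γ < ω₁) :
    ∃ δ, Cl g δ ∧ γ < δ := by
  -- monotone majorant
  let G : Ordinal.{0} → Ordinal.{0} := fun x => ⨆ y : Set.Iic x, g y
  have hG : Adm G := by
    intro x hx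
    have : Countable (Set.Iic x) := (countable_Iic hx).to_subtype
    exact Ordinal.iSup_lt_omega_one (fun y => hg y.1 (lt_of_le_of_lt y.2 hx))
  have hG2 : ∀ x < ω₁, ∀ y ≤ x, g y ≤ G x := by
    intro x hx y hy
    exact le_ciSup (f := fun y : Set.Iic x => g y)
      (bdd_of_lt _ (fun y => hg y.1 (lt_of_le_of_lt y.2 hx))) ⟨y, hy⟩
  let x : ℕ → Ordinal.{0} := fun n => Nat.rec (Order.succ γ) (fun _ y => Order.succ (max (G y) y)) n
  have hx0 : x 0 = Order.succ γ := rfl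
  have hxs : ∀ n, x (n + 1) = Order.succ (max (G (x n)) (x n)) := fun n => rfl
  have hx : ∀ n, x n < ω₁ := by
    intro n
    induction n with
    | zero => rw [hx0]; exact succ_lt_omega1 hγ
    | succ n ih => rw [hxs]; exact succ_lt_omega1 (max_lt (hG _ ih) ih)
  have hxb := bdd_of_lt x hx
  have hlt : ∀ n, x n < ⨆ n, x n := by
    intro n
    calc x n ≤ max (G (x n)) (x n) := le_max_right _ _
      _ < x (n + 1) := by rw [hxs]; exact Order.lt_succ _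
      _ ≤ _ := le_ciSup hxb (n + 1)
  refine ⟨⨆ n, x n, ⟨Ordinal.iSup_lt_omega_one hx, ?_, ?_⟩, ?_⟩
  · exact zero_le.trans_lt (hlt 0)
  · intro y hy
    obtain ⟨n, hn⟩ := exists_lt_of_lt_ciSup hy
    calc g y ≤ G (x n) := hG2 _ (hx n) y hn.le
      _ ≤ max (G (x n)) (x n) := le_max_left _ _
      _ < x (n + 1) := by rw [hxs]; exact Order.lt_succ _
      _ < _ := hlt (n + 1)
  · exact (Order.lt_succ γ).trans (hlt 0)

theorem cl_club (g : Ordinal.{0} → Ordinal.{0}) (hg : Adm g) : IsClubOmega1 {δ | Cl g δ} := by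
  refine ⟨fun δ hδ => hδ.1, ?_, ?_⟩
  · intro γ hγ
    exact cl_unbounded g hg γ hγ
  · intro δ hδ hlim h
    refine ⟨hδ, ?_, ?_⟩
    · exact hlim.bot_lt
    · intro x hx
      obtain ⟨y, hy, h1, h2⟩ := h x hx
      exact (hy.2.2 x h1).trans h2

theorem pos_of_ihp (h : IntervalHitting) : ∃ C, IsCSeq C ∧ Pos C Set.univ := by
  obtain ⟨C, hC, hhit⟩ := h
  by_contra hcon
  push Not at hcon
  have hC' : ∀ N, IsCSeq (fun α i => C α (2 * i + N)) := by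
    intro N α hα hα1
    obtain ⟨h1, h2, h3⟩ := hC α hα hα1
    refine ⟨?_, fun i => h2 _, ?_⟩
    · intro i j hij
      apply h1
      omega
    · intro γ hγ
      obtain ⟨i, hi⟩ := h3 γ hγ
      exact ⟨i, hi.trans_le (h1.monotone (by omega))⟩
  have h1 : ∀ N, ∃ g, Adm g ∧ ∀ α, IsSuccLimit α → α < ω₁ →
      ∃ i, ¬ Rel g (C α (2 * i + N)) (C α (2 * (i + 1) + N)) := by
    intro N
    have h2 := hcon _ (hC' N)
    unfold Pos at h2
    push Not at h2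
    obtain ⟨g, hg, h3⟩ := h2
    exact ⟨g, hg, fun α h4 h5 => h3 α (Set.mem_univ _) h4 h5⟩
  choose g hg hg2 using h1
  obtain ⟨G, hG, hG2⟩ := exists_closure g hg
  obtain ⟨α, hα, hα1, hev⟩ := hhit _ (cl_club G hG)
  obtain ⟨N, hN⟩ := Filter.eventually_atTop.mp hev
  obtain ⟨i, hi⟩ := hg2 N α hα hα1
  apply hi
  obtain ⟨δ, hδ1, hδ2⟩ := hN (2 * i + N + 1) (by omega)
  have hδ3 : Cl G δ := hδ2
  obtain ⟨s1, s2, s3⟩ := hC α hα hα1
  refine Rel.mono (fun x hx => hG2 N x hx) ⟨δ, hδ3, ?_, ?_⟩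
  · exact (s1 (by omega)).trans_le hδ1.1
  · have : 2 * (i + 1) + N = 2 * i + N + 1 + 1 := by ring
    rw [this]
    exact hδ1.2.le

theorem Pos.sigma {C : Ordinal.{0} → ℕ → Ordinal.{0}} {X : Set Ordinal.{0}} (h : Pos C X)
    {ι : Type*} [Countable ι] (Y : ι → Set Ordinal.{0}) (hY : ∀ α ∈ X, ∃ i, α ∈ Y i) :
    ∃ i, Pos C (X ∩ Y i) := by
  by_contra hcon
  push Not at hcon
  unfold Pos at hcon
  push Not at hcon
  choose g hg hg2 using hcon
  obtain ⟨G, hG, hG2⟩ := exists_closure g hg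
  obtain ⟨α, hα, h1, h2, h3⟩ := h G hG
  obtain ⟨i, hi⟩ := hY α hα
  obtain ⟨q, hq⟩ := hg2 i α ⟨hα, hi⟩ h1 h2
  exact hq (Rel.mono (fun x hx => hG2 i x hx) (h3 q))

theorem Pos.mono {C : Ordinal.{0} → ℕ → Ordinal.{0}} {X Y : Set Ordinal.{0}} (h : Pos C X)
    (hXY : X ⊆ Y) : Pos C Y := by
  intro g hg
  obtain ⟨α, h1, h2⟩ := h g hg
  exact ⟨α, hXY h1, h2⟩

/-- positivity, with the additional requirement `α > ξ` -/
theorem Pos.gt {C : Ordinal.{0} → ℕ → Ordinal.{0}} (hC : IsCSeq C) {X : Set Ordinal.{0}} (h : Pos C X)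
    {ξ : Ordinal.{0}} (hξ : ξ < ω₁) (g : Ordinal.{0} → Ordinal.{0}) (hg : Adm g) :
    ∃ α ∈ X, IsSuccLimit α ∧ α < ω₁ ∧ ξ < α ∧ ∀ i, Rel g (C α i) (C α (i + 1)) := by
  obtain ⟨α, h1, h2, h3, h4⟩ := h (fun x => max (g x) ξ) (fun x hx => max_lt (hg x hx) hξ)
  refine ⟨α, h1, h2, h3, ?_, ?_⟩
  · obtain ⟨δ, hδ, _, hδ2⟩ := h4 0
    have := hδ.2.2 0 hδ.2.1
    calc ξ ≤ _ := le_max_right _ _
      _ < δ := this
      _ ≤ _ := hδ2
      _ < α := (hC α h2 h3).2.1 _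
  · intro i
    exact Rel.mono (fun x _ => le_max_left _ _) (h4 i)

theorem Pos.inter_gt {C : Ordinal.{0} → ℕ → Ordinal.{0}} (hC : IsCSeq C) {X : Set Ordinal.{0}}
    (h : Pos C X) {ξ : Ordinal.{0}} (hξ : ξ < ω₁) : Pos C (X ∩ Set.Ioi ξ) := by
  intro g hg
  obtain ⟨α, h1, h2, h3, h4, h5⟩ := h.gt hC hξ g hg
  exact ⟨α, ⟨h1, h4⟩, h2, h3, h5⟩

theorem exists_injections : ∃ e : Ordinal.{0} → Ordinal.{0} → ℕ, ∀ α < ω₁,
    Set.InjOn (e α) (Set.Iio α) := by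
  have hinj : ∀ δ : Ordinal.{0}, δ < ω₁ → ∃ g : Ordinal.{0} → ℕ, Set.InjOn g (Set.Iio δ) := by
    intro δ hδ
    have := countable_Iio hδ
    rw [Set.countable_iff_exists_injOn] at this
    exact this
  choose! g hg using hinj
  exact ⟨g, hg⟩

/-- Ulam: there are many disjoint positive sets, which we index by the finite lists of countable
ordinals. -/
theorem exists_disjoint_pos (C : Ordinal.{0} → ℕ → Ordinal.{0}) (hC : IsCSeq C)
    (hpos : Pos C Set.univ) :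
    ∃ S : List Ordinal.{0} → Set Ordinal.{0}, (∀ s, (∀ x ∈ s, x < ω₁) → Pos C (S s)) ∧
      ∀ s s', (∀ x ∈ s, x < ω₁) → (∀ x ∈ s', x < ω₁) → ∀ α < ω₁, α ∈ S s → α ∈ S s' → s = s' := by
  obtain ⟨e, he⟩ := exists_injections
  have h1 : ∀ ξ : Ordinal.{0}, ξ < ω₁ → ∃ n : ℕ, Pos C {α | ξ < α ∧ e α ξ = n} := by
    intro ξ hξ
    have h2 := hpos.inter_gt hC hξ
    obtain ⟨n, hn⟩ := h2.sigma (fun n : ℕ => {α | e α ξ = n}) (fun α _ => ⟨_, rfl⟩)
    refine ⟨n, hn.mono ?_⟩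
    rintro α ⟨⟨_, h3⟩, h4⟩
    exact ⟨h3, h4⟩
  choose! nn hnn using h1
  -- some value is attained uncountably often
  have h2 : ∃ n, ¬ (Set.Iio (ω₁ : Ordinal.{0}) ∩ nn ⁻¹' {n}).Countable := by
    by_contra hcon
    push Not at hcon
    have h3 : (Set.Iio (ω₁ : Ordinal.{0})).Countable := by
      have : Set.Iio (ω₁ : Ordinal.{0}) = ⋃ n, (Set.Iio (ω₁ : Ordinal.{0}) ∩ nn ⁻¹' {n}) := by
        ext x
        simp
      rw [this]
      exact Set.countable_iUnion hcon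
    rw [← Cardinal.le_aleph0_iff_set_countable, Cardinal.mk_Iio_ordinal,
      ← Cardinal.lift_aleph0.{1, 0}, Cardinal.lift_le] at h3
    simp at h3
  obtain ⟨n, hn⟩ := h2
  set Ξ := Set.Iio (ω₁ : Ordinal.{0}) ∩ nn ⁻¹' {n} with hΞ
  have h3 : Cardinal.mk (List (Set.Iio (ω₁ : Ordinal.{0}))) ≤ Cardinal.mk Ξ := by
    have hinf : Infinite (Set.Iio (ω₁ : Ordinal.{0})) := by
      rw [Cardinal.infinite_iff, Cardinal.mk_Iio_ordinal, ← Cardinal.lift_aleph0.{1, 0},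
        Cardinal.lift_le]
      simp
    rw [Cardinal.mk_list_eq_mk]
    have h4 : Uncountable Ξ := by
      by_contra h5
      rw [not_uncountable_iff] at h5
      exact hn (Set.countable_coe_iff.mp h5)
    have h6 := Cardinal.aleph_one_le_iff.mpr (Cardinal.aleph0_lt_mk (α := Ξ))
    refine le_trans ?_ h6
    rw [Cardinal.mk_Iio_ordinal]
    simp
  obtain ⟨ψ⟩ := h3
  have h4 : ∀ s : List Ordinal.{0}, (∀ x ∈ s, x < ω₁) → ∃ l : List (Set.Iio (ω₁ : Ordinal.{0})),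
      l.map Subtype.val = s := by
    intro s
    induction s with
    | nil => exact fun _ => ⟨[], rfl⟩
    | cons a s ih =>
      intro h
      obtain ⟨l, hl⟩ := ih (fun x hx => h x (List.mem_cons_of_mem _ hx))
      exact ⟨⟨a, h a List.mem_cons_self⟩ :: l, by simp [hl]⟩
  choose! l hl using h4
  refine ⟨fun s => {α | (ψ (l s)).1 < α ∧ e α (ψ (l s)).1 = n}, ?_, ?_⟩
  · intro s hs
    have h4 := (ψ (l s)).2
    have h5 := hnn _ h4.1
    have h6 : nn (ψ (l s)).1 = n := h4.2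
    rw [h6] at h5
    exact h5
  · intro s s' hs hs' α hα h4 h5
    have h6 := he α hα h4.1 h5.1 (h4.2.trans h5.2.symm)
    have h7 := ψ.injective (Subtype.ext h6)
    have h8 := congrArg (List.map Subtype.val) h7
    rw [hl s hs, hl s' hs'] at h8
    exact h8

end Pool.Agent.Lib_helper33.IHP
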